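import Mathlib

set_option autoImplicit false

/-! Independent events indexed by a set with disjoint blocks: the probability that no block is complete. -/

open MeasureTheory ProbabilityTheory Filter Finset

namespace Pool.Agent.Helper416_TP

variable {Ω κ ι : Type*} [mΩ : MeasurableSpace Ω] {μ : Measure Ω}

theorem block_meas (m : κ → MeasurableSpace Ω) (B : κ → Set Ω) (hB : ∀ p, MeasurableSet[m p] (B p))
    (S : Set κ) (T : Finset κ) (hT : ∀ p ∈ T, p ∈ S) :
    MeasurableSet[⨆ p ∈ S, m p] (⋂ p ∈ T, B p) := by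
  refine Finset.measurableSet_biInter T fun p hp => ?_
  exact (le_iSup₂ (f := fun p (_ : p ∈ S) => m p) p (hT p hp)) _ (hB p)

theorem prob_none [IsProbabilityMeasure μ] (m : κ → MeasurableSpace Ω) (hm : ∀ p, m p ≤ mΩ)
    (hind : iIndep m μ) (B : κ → Set Ω) (hB : ∀ p, MeasurableSet[m p] (B p))
    (T : ι → Finset κ) (F : Finset ι) (hdis : ∀ i ∈ F, ∀ j ∈ F, i ≠ j → Disjoint (T i) (T j)) :
    μ.real (⋂ i ∈ F, (⋂ p ∈ T i, B p)ᶜ) = ∏ i ∈ F, (1 - ∏ p ∈ T i, μ.real (B p)) := by
  classical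
  induction F using Finset.induction_on with
  | empty => simp
  | insert a F ha ih =>
    rw [Finset.set_biInter_insert, Finset.prod_insert ha]
    have hF := ih fun i hi j hj hij => hdis i (mem_insert_of_mem hi) j (mem_insert_of_mem hj) hij
    rw [← hF]
    have hd : Disjoint (T a : Set κ) (⋃ i ∈ F, (T i : Set κ)) := by
      rw [Set.disjoint_iUnion₂_right]
      intro i hi
      rw [Finset.disjoint_coe]
      exact hdis a (mem_insert_self _ _) i (mem_insert_of_mem hi) (fun h => ha (h ▸ hi))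
    have h1 := indep_iSup_of_disjoint hm hind hd
    rw [Indep_iff] at h1
    have h2 : MeasurableSet[⨆ p ∈ (T a : Set κ), m p] (⋂ p ∈ T a, B p)ᶜ :=
      (block_meas m B hB _ _ fun p hp => hp).compl
    have h3 : MeasurableSet[⨆ p ∈ ⋃ i ∈ F, (T i : Set κ), m p] (⋂ i ∈ F, (⋂ p ∈ T i, B p)ᶜ) := by
      refine Finset.measurableSet_biInter F fun i hi => ?_
      refine (block_meas m B hB _ _ fun p hp => ?_).compl
      exact Set.mem_biUnion hi hp
    have h4 := h1 _ _ h2 h3
    rw [measureReal_def, h4, ENNReal.toReal_mul]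
    congr 1
    have h5 : MeasurableSet (⋂ p ∈ T a, B p) :=
      Finset.measurableSet_biInter _ fun p _ => hm p _ (hB p)
    have h6 := hind.meas_biInter (S := T a) (s := B) fun p _ => hB p
    change μ.real (⋂ p ∈ T a, B p)ᶜ = _
    rw [probReal_compl_eq_one_sub h5]
    congr 1
    rw [measureReal_def, h6, ENNReal.toReal_prod]
    rfl

theorem prob_none_le [IsProbabilityMeasure μ] (m : κ → MeasurableSpace Ω) (hm : ∀ p, m p ≤ mΩ)
    (hind : iIndep m μ) (B : κ → Set Ω) (hB : ∀ p, MeasurableSet[m p] (B p))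
    (T : ι → Finset κ) (F : Finset ι) (hdis : ∀ i ∈ F, ∀ j ∈ F, i ≠ j → Disjoint (T i) (T j))
    (t : ℝ) (ht : ∀ i ∈ F, t ≤ ∏ p ∈ T i, μ.real (B p)) :
    μ.real (⋂ i ∈ F, (⋂ p ∈ T i, B p)ᶜ) ≤ Real.exp (-(F.card * t)) := by
  rw [prob_none m hm hind B hB T F hdis]
  calc ∏ i ∈ F, (1 - ∏ p ∈ T i, μ.real (B p)) ≤ ∏ i ∈ F, Real.exp (-t) := by
        refine Finset.prod_le_prod (fun i _ => ?_) fun i hi => ?_
        · have : ∏ p ∈ T i, μ.real (B p) ≤ 1 :=
            Finset.prod_le_one (fun p _ => measureReal_nonneg) fun p _ => measureReal_le_one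
          linarith
        · have h1 := ht i hi
          have h2 := Real.add_one_le_exp (-t)
          linarith
    _ = Real.exp (-(F.card * t)) := by
        rw [Finset.prod_const, ← Real.exp_nat_mul]
        congr 1
        ring

end Pool.Agent.Helper416_TP
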