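import Mathlib
import Pool.Agent.H510R2.Maier.MB9

set_option autoImplicit false

/-! Well spaced windows with few primes (from Maier's theorem with frequencies). -/

open Finset Filter Topology

namespace Pool.Agent.Helper416_TP

open Pool.Agent.H510R2.Maier

/-- `2 e^{-γ}` -/
noncomputable def E0 : ℝ := 2 * Real.exp (-Real.eulerMascheroniConstant)

theorem E0_pos : 0 < E0 := by unfold E0; positivity

theorem E0_le : E0 ≤ 2 := by
  unfold E0
  have h1 : Real.exp (-Real.eulerMascheroniConstant) ≤ 1 := by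
    rw [Real.exp_le_one_iff]
    have := Real.one_half_lt_eulerMascheroniConstant
    linarith
  linarith

/-- the common length of the windows -/
noncomputable def Yc (κ η : ℝ) (N : ℕ) : ℕ :=
  ⌊E0 * κ * (1 - η) * ((1 - 2 * η) * Real.log N) ^ 2⌋₊

theorem logsq_small (C δ : ℝ) (hδ : 0 < δ) :
    ∀ᶠ x : ℝ in atTop, C * (Real.log x) ^ 2 + 2 ≤ x ^ δ := by
  have h1 := (isLittleO_log_rpow_rpow_atTop 2 hδ).bound (show (0 : ℝ) < 1 / (2 * (|C| + 1)) by positivity)
  have h2 := (tendsto_rpow_atTop hδ).eventually_ge_atTop 4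
  filter_upwards [h1, h2, eventually_ge_atTop (1 : ℝ)] with x h3 h4 h5
  have h6 : 0 ≤ Real.log x := Real.log_nonneg h5
  rw [Real.norm_of_nonneg (Real.rpow_nonneg h6 _), Real.norm_of_nonneg (by positivity),
    Real.rpow_two] at h3
  have h7 : C * (Real.log x) ^ 2 ≤ (|C| + 1) * (Real.log x) ^ 2 := by
    have : C ≤ |C| + 1 := by linarith [le_abs_self C]
    exact mul_le_mul_of_nonneg_right this (sq_nonneg _)
  have h8 : (|C| + 1) * (Real.log x) ^ 2 ≤ (|C| + 1) * (1 / (2 * (|C| + 1)) * x ^ δ) := by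
    gcongr
  have h9 : (|C| + 1) * (1 / (2 * (|C| + 1)) * x ^ δ) = x ^ δ / 2 := by
    have : |C| + 1 ≠ 0 := by positivity
    field_simp
  linarith

theorem Yc_small (κ η δ : ℝ) (hκ : 0 < κ) (hη1 : η < 1 / 4) (hδ : 0 < δ) :
    ∀ᶠ N : ℕ in atTop, 2 * ((Yc κ η N : ℝ) + 1) ≤ (N : ℝ) ^ δ := by
  have h := tendsto_natCast_atTop_atTop.eventually
    (logsq_small (2 * (E0 * κ * (1 - η) * (1 - 2 * η) ^ 2)) δ hδ)
  filter_upwards [h] with N hN
  have h1 : (Yc κ η N : ℝ) ≤ E0 * κ * (1 - η) * ((1 - 2 * η) * Real.log N) ^ 2 := by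
    refine Nat.floor_le ?_
    have := E0_pos
    have : 0 < 1 - η := by linarith
    positivity
  have h2 : E0 * κ * (1 - η) * ((1 - 2 * η) * Real.log N) ^ 2 =
      (E0 * κ * (1 - η) * (1 - 2 * η) ^ 2) * (Real.log N) ^ 2 := by ring
  rw [h2] at h1
  linarith

theorem windows (κ η : ℝ) (hκ : 0 < κ) (hη : 0 < η) (hη1 : η < 1 / 4) :
    ∀ᶠ N : ℕ in atTop, ∃ F : Finset ℕ, (N : ℝ) ^ (1 - 2 * η) ≤ F.card ∧
      (∀ n ∈ F, n ≤ N ∧ (N : ℝ) ^ (1 - 2 * η) ≤ n ∧
        (cnt n (Yc κ η N) : ℝ) ≤ κ * Real.log N) ∧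
      (∀ n ∈ F, ∀ n' ∈ F, n < n' → n + Yc κ η N < n') := by
  classical
  have hE := E0_pos
  have hc : E0 * κ * (1 - η) < 2 * Real.exp (-Real.eulerMascheroniConstant) * κ := by
    change E0 * κ * (1 - η) < E0 * κ
    have : 0 < E0 * κ * η := by positivity
    nlinarith
  have h1 := G.few_freq κ (E0 * κ * (1 - η)) η hκ hc hη
  have h2 : ∀ᶠ N : ℕ in atTop, (2 : ℝ) ≤ (N : ℝ) ^ η :=
    tendsto_natCast_atTop_atTop.eventually ((tendsto_rpow_atTop hη).eventually_ge_atTop 2)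
  filter_upwards [h1, h2, Yc_small κ η η hκ hη1 hη, eventually_ge_atTop 3] with N hN1 hN2 hN3 hN4
  have hN0 : (0 : ℝ) < N := by
    have : 0 < N := by omega
    exact_mod_cast this
  have hN1r : (1 : ℝ) ≤ N := by
    have : 1 ≤ N := by omega
    exact_mod_cast this
  have e1 : (N : ℝ) ^ (1 - η) = (N : ℝ) ^ η * (N : ℝ) ^ (1 - 2 * η) := by
    rw [← Real.rpow_add hN0]; congr 1; ring
  have hb0 : 0 < (N : ℝ) ^ (1 - 2 * η) := Real.rpow_pos_of_pos hN0 _
  set b := (N : ℝ) ^ (1 - 2 * η) with hb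
  set Y := Yc κ η N with hY
  set S := (Icc 1 N).filter (fun n : ℕ =>
    (cntP Nat.Prime n ⌊E0 * κ * (1 - η) * (Real.log n) ^ 2⌋₊ : ℝ) ≤ κ * Real.log n) with hS
  have hSc : (N : ℝ) ^ (1 - η) ≤ S.card := by
    unfold G.NF at hN1
    convert hN1 using 3
  set S' := S.filter (fun n : ℕ => b ≤ n) with hS'
  have hsplit : S.card = S'.card + (S.filter (fun n : ℕ => ¬ b ≤ n)).card :=
    (Finset.card_filter_add_card_filter_not (s := S) (fun n : ℕ => b ≤ n)).symm
  have hrest : ((S.filter (fun n : ℕ => ¬ b ≤ n)).card : ℝ) ≤ b := by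
    have h3 : S.filter (fun n : ℕ => ¬ b ≤ n) ⊆ Icc 1 ⌊b⌋₊ := by
      intro n hn
      rw [mem_filter, hS, mem_filter, mem_Icc] at hn
      rw [mem_Icc]
      exact ⟨hn.1.1.1, Nat.le_floor (le_of_lt (not_le.1 hn.2))⟩
    have h4 := card_le_card h3
    rw [Nat.card_Icc, Nat.add_sub_cancel] at h4
    calc ((S.filter (fun n : ℕ => ¬ b ≤ n)).card : ℝ) ≤ (⌊b⌋₊ : ℝ) := by exact_mod_cast h4
      _ ≤ b := Nat.floor_le hb0.le
  have hS'c : (N : ℝ) ^ (1 - η) / 2 ≤ S'.card := by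
    have h5 : (S.card : ℝ) = S'.card + ((S.filter (fun n : ℕ => ¬ b ≤ n)).card : ℝ) := by
      exact_mod_cast hsplit
    have h6 : 2 * b ≤ (N : ℝ) ^ (1 - η) := by
      rw [e1]; exact mul_le_mul_of_nonneg_right hN2 hb0.le
    linarith
  have hmaps : ∀ a ∈ S', a % (Y + 1) ∈ range (Y + 1) := fun a _ =>
    mem_range.2 (Nat.mod_lt _ (Nat.succ_pos _))
  have hcard : (range (Y + 1)).card • b ≤ (S'.card : ℝ) := by
    rw [card_range, nsmul_eq_mul]
    push_cast
    calc ((Y : ℝ) + 1) * b ≤ ((N : ℝ) ^ η / 2) * b := by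
          apply mul_le_mul_of_nonneg_right _ hb0.le
          linarith
      _ = (N : ℝ) ^ (1 - η) / 2 := by rw [e1]; ring
      _ ≤ S'.card := hS'c
  obtain ⟨r, -, hr⟩ := exists_le_card_fiber_of_nsmul_le_card_of_maps_to hmaps ⟨0, mem_range.2 (Nat.succ_pos _)⟩ hcard
  refine ⟨S'.filter (fun n => n % (Y + 1) = r), hr, ?_, ?_⟩
  · intro n hn
    rw [mem_filter, hS', mem_filter, hS, mem_filter, mem_Icc] at hn
    obtain ⟨⟨⟨⟨hn1, hn2⟩, hn3⟩, hn4⟩, -⟩ := hn
    have hnN : (n : ℝ) ≤ N := by exact_mod_cast hn2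
    have hn0 : (0 : ℝ) < n := by
      have : 0 < n := by omega
      exact_mod_cast this
    have hlN : 0 ≤ Real.log N := Real.log_nonneg hN1r
    have hl1 : (1 - 2 * η) * Real.log N ≤ Real.log n := by
      rw [← Real.log_rpow hN0]
      exact Real.log_le_log hb0 hn4
    have hl0 : 0 ≤ (1 - 2 * η) * Real.log N := mul_nonneg (by linarith) hlN
    refine ⟨hn2, hn4, ?_⟩
    have hYle : Y ≤ ⌊E0 * κ * (1 - η) * (Real.log n) ^ 2⌋₊ := by
      rw [hY]
      unfold Yc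
      apply Nat.floor_le_floor
      have : 0 < 1 - η := by linarith
      gcongr
    calc (cnt n Y : ℝ) ≤ (cnt n ⌊E0 * κ * (1 - η) * (Real.log n) ^ 2⌋₊ : ℝ) := by
          exact_mod_cast G.cnt_mono n hYle
      _ ≤ κ * Real.log n := by rw [← cntP_prime]; exact hn3
      _ ≤ κ * Real.log N := by
          apply mul_le_mul_of_nonneg_left _ hκ.le
          exact Real.log_le_log hn0 hnN
  · intro n hn n' hn' hlt
    rw [mem_filter] at hn hn'
    have h7 : n ≡ n' [MOD (Y + 1)] := by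
      unfold Nat.ModEq
      rw [hn.2, hn'.2]
    have h8 := (Nat.modEq_iff_dvd' hlt.le).1 h7
    have h9 := Nat.le_of_dvd (by omega) h8
    omega

/-- one of `J` subwindows has at most `1/J` of the primes -/
theorem subwin (n Y J : ℕ) (hJ : 0 < J) :
    ∃ m, n ≤ m ∧ m + Y / J ≤ n + Y ∧ J * cnt m (Y / J) ≤ cnt n Y := by
  classical
  set Z := Y / J with hZ
  have hJZ : J * Z ≤ Y := Nat.mul_div_le Y J
  have htel : ∀ k : ℕ, Nat.count Nat.Prime (n + 1 + k * Z) =
      Nat.count Nat.Prime (n + 1) + ∑ j ∈ range k, cnt (n + j * Z) Z := by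
    intro k
    induction k with
    | zero => simp
    | succ k ih =>
      rw [sum_range_succ, ← add_assoc, ← ih, ← cntP_prime]
      have := count_cntP Nat.Prime (n + k * Z) Z
      rw [show n + 1 + (k + 1) * Z = n + k * Z + 1 + Z by ring, this]
      rw [show n + k * Z + 1 = n + 1 + k * Z by ring]
  have h1 := htel J
  have h2 := count_cntP Nat.Prime n (J * Z)
  rw [h2, cntP_prime] at h1
  have h3 : ∑ j ∈ range J, cnt (n + j * Z) Z ≤ cnt n Y := by
    have := G.cnt_mono n hJZ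
    omega
  by_contra hcon
  push Not at hcon
  have h4 : ∀ j ∈ range J, cnt n Y < J * cnt (n + j * Z) Z := by
    intro j hj
    have hj' := mem_range.1 hj
    refine hcon (n + j * Z) (Nat.le_add_right _ _) ?_
    have : (j + 1) * Z ≤ J * Z := Nat.mul_le_mul_right _ hj'
    have e : n + j * Z + Z = n + (j + 1) * Z := by ring
    omega
  have h5 : ∑ j ∈ range J, cnt n Y < ∑ j ∈ range J, J * cnt (n + j * Z) Z :=
    sum_lt_sum_of_nonempty ⟨0, mem_range.2 hJ⟩ h4
  rw [sum_const, card_range, smul_eq_mul, ← mul_sum] at h5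
  have h6 := Nat.mul_le_mul_left J h3
  omega

end Pool.Agent.Helper416_TP
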