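import Mathlib
import Pool.Agent.Helper416_TP.Prob
import Pool.Agent.Helper416_TP.Win

set_option autoImplicit false

/-! Long gaps in random subsets of the primes. -/

open MeasureTheory ProbabilityTheory Filter Finset Topology

namespace Pool.Agent.Helper416_TP

open Pool.Agent.H510R2.Maier

/-- primes in `(m, m+Z]` -/
def TT (m Z : ℕ) : Finset Nat.Primes := (Ioc m (m + Z)).subtype Nat.Prime

theorem mem_TT {m Z : ℕ} {p : Nat.Primes} : p ∈ TT m Z ↔ m < (p : ℕ) ∧ (p : ℕ) ≤ m + Z :=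
  (@Finset.mem_subtype ℕ Nat.Prime _ (Ioc m (m + Z)) p).trans mem_Ioc

theorem card_TT (m Z : ℕ) : (TT m Z).card = cnt m Z := by
  have h0 : (TT m Z).card = ((Ioc m (m + Z)).filter Nat.Prime).card :=
    Finset.card_subtype Nat.Prime (Ioc m (m + Z))
  rw [h0]
  unfold cnt
  symm
  apply Finset.card_bij (fun h _ => m + h)
  · intro h hh
    rw [mem_filter, mem_Icc] at hh
    rw [mem_filter, mem_Ioc]
    exact ⟨by omega, hh.2⟩
  · intro a _ b _ h
    omega
  · intro n hn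
    rw [mem_filter, mem_Ioc] at hn
    refine ⟨n - m, ?_, by omega⟩
    rw [mem_filter, mem_Icc]
    refine ⟨by omega, ?_⟩
    rw [show m + (n - m) = n by omega]
    exact hn.2

/-- the primes `p` with `ω ∈ A p` -/
def Kept {Ω : Type*} (A : Nat.Primes → Set Ω) (ω : Ω) : Set ℕ :=
  {n | ∃ h : n.Prime, ω ∈ A ⟨n, h⟩}

/-- `a < b` are consecutive elements of `S` -/
def Consec (S : Set ℕ) (a b : ℕ) : Prop := a ∈ S ∧ b ∈ S ∧ a < b ∧ ∀ c ∈ S, ¬ (a < c ∧ c < b)

theorem exists_consec {S : Set ℕ} (hS : S.Infinite) {s m Z : ℕ} (hs : s ∈ S) (hsm : s ≤ m)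
    (hgap : ∀ c ∈ S, ¬ (m < c ∧ c ≤ m + Z)) : ∃ a b, Consec S a b ∧ a ≤ m ∧ Z < b - a := by
  classical
  obtain ⟨b0, hb0, hb1⟩ := hS.exists_gt m
  have hex : ∃ b, b ∈ S ∧ m < b := ⟨b0, hb0, hb1⟩
  set b := Nat.find hex with hb
  obtain ⟨hbS, hbm⟩ := Nat.find_spec hex
  set a := Nat.findGreatest (fun t => t ∈ S) m with ha
  have haS : a ∈ S := Nat.findGreatest_spec (P := fun t => t ∈ S) hsm hs
  have ham : a ≤ m := Nat.findGreatest_le m
  have hbZ : m + Z < b := by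
    by_contra h
    exact hgap b hbS ⟨hbm, not_lt.1 h⟩
  refine ⟨a, b, ⟨haS, hbS, by omega, ?_⟩, ham, by omega⟩
  rintro c hc ⟨h1, h2⟩
  rcases le_or_gt c m with h | h
  · exact absurd h1 (not_lt.2 (Nat.le_findGreatest h hc))
  · exact Nat.find_min hex h2 ⟨hc, h⟩

section

variable {Ω : Type*} [mΩ : MeasurableSpace Ω] {μ : Measure Ω} [IsProbabilityMeasure μ]
variable {A : Nat.Primes → Set Ω} {Λ : ℝ → ℝ} {X₁ : ℝ}

/-- the number of subwindows -/
noncomputable def JJ (Λ : ℝ → ℝ) (κ η : ℝ) (x : ℕ) : ℕ := ⌈κ * Λ x / (1 - 5 * η)⌉₊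

/-- the length of the subwindows -/
noncomputable def ZZ (Λ : ℝ → ℝ) (κ η : ℝ) (x : ℕ) : ℕ := Yc κ η (x / 2) / JJ Λ κ η x

theorem half_tendsto : Tendsto (fun x : ℕ => x / 2) atTop atTop := by
  rw [tendsto_atTop]
  intro b
  filter_upwards [eventually_ge_atTop (2 * b)] with x hx
  omega

theorem prob_bad (hA : ∀ p, MeasurableSet (A p)) (hind : iIndepSet A μ) (hΛ1 : 0 < Λ X₁)
    (hmono : MonotoneOn Λ (Set.Ici X₁))
    (hP : ∀ p : Nat.Primes, X₁ ≤ ((p : ℕ) : ℝ) → μ.real (A p)ᶜ = Real.exp (-Λ ((p : ℕ) : ℝ)))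
    (κ η : ℝ) (hκ : 0 < κ) (hη : 0 < η) (hη1 : η < 1 / 10) :
    ∀ᶠ x : ℕ in atTop,
      μ.real {ω | ∀ m : ℕ, (((x / 2 : ℕ) : ℝ)) ^ (1 - 2 * η) ≤ m → m ≤ x →
        ∃ p ∈ TT m (ZZ Λ κ η x), ω ∈ A p} ≤ Real.exp (-(((x / 2 : ℕ) : ℝ)) ^ η) := by
  classical
  have hw := half_tendsto.eventually (windows κ η hκ hη (by linarith))
  have hy := half_tendsto.eventually (Yc_small κ η 1 hκ (by linarith) one_pos)
  have hb1 : ∀ᶠ N : ℕ in atTop, X₁ ≤ (N : ℝ) ^ (1 - 2 * η) :=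
    tendsto_natCast_atTop_atTop.eventually
      ((tendsto_rpow_atTop (by linarith : 0 < 1 - 2 * η)).eventually_ge_atTop X₁)
  have hb2 := half_tendsto.eventually hb1
  have hx1 : ∀ᶠ x : ℕ in atTop, X₁ ≤ (x : ℝ) := tendsto_natCast_atTop_atTop.eventually_ge_atTop X₁
  filter_upwards [hw, hy, hb2, hx1, eventually_ge_atTop 6] with x h1 h2 h3 h4 h5
  set N := x / 2 with hN
  have hN3 : 3 ≤ N := by omega
  have hN2x : 2 * N ≤ x := by omega
  have hN0 : (0 : ℝ) < N := by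
    have : 0 < N := by omega
    exact_mod_cast this
  have hN1r : (1 : ℝ) ≤ N := by
    have : 1 ≤ N := by omega
    exact_mod_cast this
  have hlN : 0 ≤ Real.log N := Real.log_nonneg hN1r
  set Y := Yc κ η N with hY
  rw [Real.rpow_one] at h2
  have hYN : Y ≤ N := by
    have h6 : (Y : ℝ) ≤ N := by
      have : (0 : ℝ) ≤ (Y : ℝ) := Nat.cast_nonneg _
      linarith
    exact_mod_cast h6
  have hΛx : 0 < Λ x := lt_of_lt_of_le hΛ1 (hmono Set.self_mem_Ici (Set.mem_Ici.2 h4) h4)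
  have h15 : 0 < 1 - 5 * η := by linarith
  set J := JJ Λ κ η x with hJ
  have hJr : κ * Λ x / (1 - 5 * η) ≤ J := Nat.le_ceil _
  have hJ0r : (0 : ℝ) < J := lt_of_lt_of_le (by positivity) hJr
  have hJ0 : 0 < J := by exact_mod_cast hJ0r
  set Z := ZZ Λ κ η x with hZ
  have hZe : Z = Y / J := rfl
  obtain ⟨F, hF1, hF2, hF3⟩ := h1
  have hsub := fun n => subwin n Y J hJ0
  choose m hm1 hm2 hm3 using hsub
  rw [← hZe] at hm2 hm3
  set T : ℕ → Finset Nat.Primes := fun n => TT (m n) Z with hT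
  -- the bad event is contained in the event that no block is complete
  have hincl : {ω | ∀ k : ℕ, ((N : ℝ)) ^ (1 - 2 * η) ≤ k → k ≤ x → ∃ p ∈ TT k Z, ω ∈ A p} ⊆
      ⋂ i ∈ F, (⋂ p ∈ T i, (A p)ᶜ)ᶜ := by
    intro ω hω
    rw [Set.mem_iInter₂]
    intro n hn
    obtain ⟨hn1, hn2, -⟩ := hF2 n hn
    have h6 := hm1 n
    have h7 := hm2 n
    have h8 : (n : ℝ) ≤ m n := by exact_mod_cast h6
    obtain ⟨p, hp1, hp2⟩ := hω (m n) (hn2.trans h8) (by omega)
    rw [Set.mem_compl_iff, Set.mem_iInter₂]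
    intro hcon
    exact hcon p hp1 hp2
  refine (measureReal_mono hincl).trans ?_
  have hm : ∀ p, MeasurableSpace.generateFrom {A p} ≤ mΩ := by
    intro p
    apply MeasurableSpace.generateFrom_le
    intro t ht
    rw [Set.mem_singleton_iff] at ht
    rw [ht]
    exact hA p
  have hB : ∀ p, MeasurableSet[MeasurableSpace.generateFrom {A p}] (A p)ᶜ := fun p =>
    (MeasurableSpace.measurableSet_generateFrom (Set.mem_singleton _)).compl
  have hdis : ∀ i ∈ F, ∀ j ∈ F, i ≠ j → Disjoint (T i) (T j) := by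
    intro i hi j hj hij
    rw [Finset.disjoint_left]
    intro p hp1 hp2
    rw [hT, mem_TT] at hp1 hp2
    have a1 := hm1 i
    have a2 := hm2 i
    have a3 := hm1 j
    have a4 := hm2 j
    rcases lt_or_gt_of_ne hij with h | h
    · have := hF3 i hi j hj h
      omega
    · have := hF3 j hj i hi h
      omega
  have hmain := prob_none_le (μ := μ) (fun p => MeasurableSpace.generateFrom {A p}) hm
    ((iIndepSet_iff_iIndep A μ).1 hind) (fun p => (A p)ᶜ) hB T F hdis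
    (Real.exp (-((1 - 5 * η) * Real.log N))) ?_
  · refine hmain.trans ?_
    rw [Real.exp_le_exp, neg_le_neg_iff]
    have h9 : Real.exp (-((1 - 5 * η) * Real.log N)) = (N : ℝ) ^ (-(1 - 5 * η)) := by
      rw [Real.rpow_def_of_pos hN0]
      congr 1
      ring
    rw [h9]
    calc (N : ℝ) ^ η ≤ (N : ℝ) ^ (1 - 2 * η + -(1 - 5 * η)) := by
          apply Real.rpow_le_rpow_of_exponent_le hN1r
          linarith
      _ = (N : ℝ) ^ (1 - 2 * η) * (N : ℝ) ^ (-(1 - 5 * η)) := Real.rpow_add hN0 _ _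
      _ ≤ F.card * (N : ℝ) ^ (-(1 - 5 * η)) :=
          mul_le_mul_of_nonneg_right hF1 (Real.rpow_nonneg hN0.le _)
  · intro n hn
    obtain ⟨hn1, hn2, hn3⟩ := hF2 n hn
    have h6 := hm1 n
    have h7 := hm2 n
    have h8 : (n : ℝ) ≤ m n := by exact_mod_cast h6
    have hp : ∀ p ∈ T n, Real.exp (-Λ x) ≤ μ.real (A p)ᶜ := by
      intro p hp
      rw [hT, mem_TT] at hp
      have b1 : X₁ ≤ ((p : ℕ) : ℝ) := by
        have : ((m n : ℕ) : ℝ) ≤ ((p : ℕ) : ℝ) := by exact_mod_cast hp.1.le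
        linarith
      have b2 : ((p : ℕ) : ℝ) ≤ x := by
        have : (p : ℕ) ≤ x := by omega
        exact_mod_cast this
      rw [hP p b1, Real.exp_le_exp, neg_le_neg_iff]
      exact hmono (Set.mem_Ici.2 b1) (Set.mem_Ici.2 h4) b2
    calc Real.exp (-((1 - 5 * η) * Real.log N)) ≤ Real.exp (-Λ x) ^ (T n).card := by
          rw [← Real.exp_nat_mul, Real.exp_le_exp]
          have hc : ((T n).card : ℝ) * J ≤ κ * Real.log N := by
            have h10 : J * cnt (m n) Z ≤ cnt n Y := hm3 n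
            have h11 : ((J : ℝ)) * cnt (m n) Z ≤ cnt n Y := by exact_mod_cast h10
            have h12 : (T n).card = cnt (m n) Z := card_TT _ _
            rw [h12]
            linarith
          have h13 : ((T n).card : ℝ) * (κ * Λ x) ≤ (κ * Real.log N) * (1 - 5 * η) := by
            have h14 : κ * Λ x ≤ J * (1 - 5 * η) := by
              rwa [div_le_iff₀ h15] at hJr
            calc ((T n).card : ℝ) * (κ * Λ x) ≤ ((T n).card : ℝ) * (J * (1 - 5 * η)) :=
                  mul_le_mul_of_nonneg_left h14 (Nat.cast_nonneg _)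
              _ = (((T n).card : ℝ) * J) * (1 - 5 * η) := by ring
              _ ≤ (κ * Real.log N) * (1 - 5 * η) := mul_le_mul_of_nonneg_right hc h15.le
          have h16 : ((T n).card : ℝ) * Λ x ≤ (1 - 5 * η) * Real.log N := by
            have : κ * (((T n).card : ℝ) * Λ x) ≤ κ * ((1 - 5 * η) * Real.log N) := by linarith
            exact le_of_mul_le_mul_left this hκ
          linarith
      _ ≤ ∏ p ∈ T n, μ.real (A p)ᶜ := by
          rw [← Finset.prod_const]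
          exact Finset.prod_le_prod (fun _ _ => (Real.exp_pos _).le) hp

theorem exp_small (η : ℝ) (hη : 0 < η) : ∀ᶠ x : ℕ in atTop,
    Real.exp (-(((x / 2 : ℕ) : ℝ)) ^ η) ≤ 1 / (x : ℝ) ^ 2 := by
  have h := half_tendsto.eventually
    (tendsto_natCast_atTop_atTop.eventually (logsq_small 4 η hη))
  filter_upwards [h, eventually_ge_atTop 6] with x h1 h2
  set N := x / 2 with hN
  have hN3 : 3 ≤ N := by omega
  have hx3 : x ≤ 3 * N := by omega
  have hN0 : (0 : ℝ) < N := by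
    have : 0 < N := by omega
    exact_mod_cast this
  have hx0 : (0 : ℝ) < x := by
    have : 0 < x := by omega
    exact_mod_cast this
  have hl1 : 1 ≤ Real.log N := by
    rw [← Real.log_exp 1]
    apply Real.log_le_log (Real.exp_pos _)
    have h3 : (3 : ℝ) ≤ N := by exact_mod_cast hN3
    have := Real.exp_one_lt_d9
    linarith
  have hl2 : Real.log x ≤ 2 + Real.log N := by
    have h4 : (x : ℝ) ≤ 3 * N := by exact_mod_cast hx3
    have h5 : Real.log x ≤ Real.log (3 * N) := Real.log_le_log hx0 h4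
    rw [Real.log_mul (by norm_num) hN0.ne'] at h5
    have h6 : Real.log 3 ≤ 2 := by
      have := Real.log_le_sub_one_of_pos (show (0 : ℝ) < 3 by norm_num)
      linarith
    linarith
  have h7 : 2 * Real.log x ≤ (N : ℝ) ^ η := by nlinarith
  calc Real.exp (-((N : ℝ)) ^ η) ≤ Real.exp (-(2 * Real.log x)) := by
        rw [Real.exp_le_exp]; linarith
    _ = 1 / (x : ℝ) ^ 2 := by
        rw [Real.exp_neg, ← Real.log_rpow hx0, Real.exp_log (by positivity), one_div]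
        norm_num

theorem ae_windows (hA : ∀ p, MeasurableSet (A p)) (hind : iIndepSet A μ) (hΛ1 : 0 < Λ X₁)
    (hmono : MonotoneOn Λ (Set.Ici X₁))
    (hP : ∀ p : Nat.Primes, X₁ ≤ ((p : ℕ) : ℝ) → μ.real (A p)ᶜ = Real.exp (-Λ ((p : ℕ) : ℝ)))
    (κ η : ℝ) (hκ : 0 < κ) (hη : 0 < η) (hη1 : η < 1 / 10) :
    ∀ᵐ ω ∂μ, ∀ᶠ x : ℕ in atTop, ∃ m : ℕ, (((x / 2 : ℕ) : ℝ)) ^ (1 - 2 * η) ≤ m ∧ m ≤ x ∧
      ∀ p ∈ TT m (ZZ Λ κ η x), ω ∉ A p := by
  have h1 := prob_bad hA hind hΛ1 hmono hP κ η hκ hη hη1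
  obtain ⟨x₀, hx₀⟩ := eventually_atTop.1 (h1.and (exp_small η hη))
  set s : ℕ → Set Ω := fun x => if x₀ ≤ x then
    {ω | ∀ m : ℕ, (((x / 2 : ℕ) : ℝ)) ^ (1 - 2 * η) ≤ m → m ≤ x →
        ∃ p ∈ TT m (ZZ Λ κ η x), ω ∈ A p} else ∅ with hs
  have hbd : ∀ x, μ (s x) ≤ ENNReal.ofReal (1 / (x : ℝ) ^ 2) := by
    intro x
    rw [hs]
    dsimp only
    split_ifs with h
    · obtain ⟨h2, h3⟩ := hx₀ x h
      rw [← ofReal_measureReal]
      exact ENNReal.ofReal_le_ofReal (h2.trans h3)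
    · simp
  have hsum : ∑' x, μ (s x) ≠ ⊤ := by
    refine ne_top_of_le_ne_top ?_ (ENNReal.tsum_le_tsum hbd)
    exact (Real.summable_one_div_nat_pow.2 (by norm_num)).tsum_ofReal_ne_top
  filter_upwards [ae_eventually_notMem hsum] with ω hω
  filter_upwards [hω, eventually_ge_atTop x₀] with x h2 h3
  rw [hs] at h2
  dsimp only at h2
  rw [if_pos h3] at h2
  simp only [Set.mem_setOf_eq] at h2
  push Not at h2
  obtain ⟨m, h4, h5, h6⟩ := h2
  exact ⟨m, h4, h5, h6⟩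

theorem kept_infinite (hA : ∀ p, MeasurableSet (A p)) (hind : iIndepSet A μ) (hΛ1 : 0 < Λ X₁)
    (hmono : MonotoneOn Λ (Set.Ici X₁))
    (hP : ∀ p : Nat.Primes, X₁ ≤ ((p : ℕ) : ℝ) → μ.real (A p)ᶜ = Real.exp (-Λ ((p : ℕ) : ℝ))) :
    ∀ᵐ ω ∂μ, (Kept A ω).Infinite := by
  set K0 := ⌈X₁⌉₊ with hK0
  set g : ℕ → Nat.Primes := fun k => ⟨Nat.nth Nat.Prime (k + K0), Nat.prime_nth_prime _⟩ with hg
  have hginj : Function.Injective g := by
    intro a b h
    have h1 : Nat.nth Nat.Prime (a + K0) = Nat.nth Nat.Prime (b + K0) := congrArg Subtype.val h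
    have := Nat.nth_injective Nat.infinite_setOfPred_prime h1
    omega
  have hgX : ∀ k, X₁ ≤ ((g k : ℕ) : ℝ) := by
    intro k
    have h1 : k + K0 ≤ Nat.nth Nat.Prime (k + K0) :=
      (Nat.nth_strictMono Nat.infinite_setOfPred_prime).le_apply
    have h2 : X₁ ≤ (K0 : ℝ) := Nat.le_ceil _
    have h3 : (K0 : ℝ) ≤ ((Nat.nth Nat.Prime (k + K0) : ℕ) : ℝ) := by
      have : K0 ≤ Nat.nth Nat.Prime (k + K0) := by omega
      exact_mod_cast this
    exact h2.trans h3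
  have hc : 0 < 1 - Real.exp (-Λ X₁) := by
    have : Real.exp (-Λ X₁) < 1 := by
      rw [Real.exp_lt_one_iff]; linarith
    linarith
  have hprob : ∀ k, ENNReal.ofReal (1 - Real.exp (-Λ X₁)) ≤ μ (A (g k)) := by
    intro k
    rw [← ofReal_measureReal (μ := μ) (s := A (g k))]
    apply ENNReal.ofReal_le_ofReal
    have h1 := hP (g k) (hgX k)
    rw [probReal_compl_eq_one_sub (hA _)] at h1
    have h2 : Real.exp (-Λ ((g k : ℕ) : ℝ)) ≤ Real.exp (-Λ X₁) := by
      rw [Real.exp_le_exp, neg_le_neg_iff]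
      exact hmono Set.self_mem_Ici (Set.mem_Ici.2 (hgX k)) (hgX k)
    linarith
  have hsum : ∑' k, μ ((A ∘ g) k) = ⊤ := by
    have h1 : ∑' _ : ℕ, ENNReal.ofReal (1 - Real.exp (-Λ X₁)) = ⊤ :=
      ENNReal.tsum_const_eq_top_of_ne_zero (by
        rw [Ne, ENNReal.ofReal_eq_zero, not_le]; exact hc)
    rw [← top_le_iff, ← h1]
    exact ENNReal.tsum_le_tsum hprob
  have h2 := measure_limsup_eq_one (μ := μ) (s := A ∘ g) (fun k => hA _) (hind.precomp hginj) hsum
  have h3 : limsup (A ∘ g) atTop ∈ ae μ :=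
    (mem_ae_iff_prob_eq_one₀
      (MeasurableSet.measurableSet_limsup (fun k => hA _)).nullMeasurableSet).2 h2
  filter_upwards [h3] with ω hω
  rw [Filter.mem_limsup_iff_frequently_mem] at hω
  have h4 : {k : ℕ | ω ∈ (A ∘ g) k}.Infinite := Nat.frequently_atTop_iff_infinite.1 hω
  have h5 : (fun k : ℕ => ((g k : Nat.Primes) : ℕ)) '' {k : ℕ | ω ∈ (A ∘ g) k} ⊆ Kept A ω := by
    rintro _ ⟨k, hk, rfl⟩
    exact ⟨(g k).2, hk⟩
  refine (h4.image ?_).mono h5
  intro a _ b _ h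
  exact hginj (Subtype.ext h)

end

end Pool.Agent.Helper416_TP
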