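import Mathlib
import Pool.Agent.Helper416_TP.Main

set_option autoImplicit false

/-! Long gaps in random subsets of the primes: conclusion. -/

open MeasureTheory ProbabilityTheory Filter Finset Topology

namespace Pool.Agent.Helper416_TP

open Pool.Agent.H510R2.Maier

theorem harm128 : harmonic 128 < 5433148/1000000 := by
  rw [harmonic]
  norm_num [Finset.sum_range_succ]

theorem gamma128 : Real.eulerMascheroniConstant < 0.58112 := by
  have h1 := Real.eulerMascheroniConstant_lt_eulerMascheroniSeq' 128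
  rw [Real.eulerMascheroniSeq', if_neg (by norm_num)] at h1
  have h2 : ((harmonic 128 : ℚ) : ℝ) < ((5433148/1000000 : ℚ) : ℝ) := by exact_mod_cast harm128
  have h3 : Real.log ((128 : ℕ) : ℝ) = 7 * Real.log 2 := by
    rw [show (((128 : ℕ) : ℝ)) = 2 ^ 7 by norm_num, Real.log_pow]
    norm_num
  rw [h3] at h1
  have h4 := Real.log_two_gt_d9
  push_cast at h2
  linarith

theorem E0_big : 1.1185 < E0 := by
  unfold E0
  have h1 : Real.exp (0.58112 : ℝ) ≤ 1.7881 := by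
    have := Real.exp_bound' (x := 0.58112) (by norm_num) (by norm_num) (n := 8) (by norm_num)
    refine this.trans ?_
    norm_num [Finset.sum_range_succ, Nat.factorial]
  have h2 : Real.exp (-(0.58112 : ℝ)) < Real.exp (-Real.eulerMascheroniConstant) := by
    rw [Real.exp_lt_exp]
    linarith [gamma128]
  have h3 : 1 / 1.7881 ≤ Real.exp (-(0.58112 : ℝ)) := by
    rw [Real.exp_neg, ← one_div]
    exact one_div_le_one_div_of_le (Real.exp_pos _) h1
  norm_num at h3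
  linarith

theorem log_q (q : ℝ) (h0 : 0 < q) (h1 : q ≤ 1 / 5) : -Real.log (1 - q) ≤ 1.11575 * q := by
  have h2 : Real.log (5 / 4) ≤ 0.22315 := by
    rw [Real.log_le_iff_le_exp (by norm_num)]
    have := Real.sum_le_exp_of_nonneg (x := 0.22315) (by norm_num) 5
    refine le_trans ?_ this
    norm_num [Finset.sum_range_succ, Nat.factorial]
  have hc := strictConcaveOn_log_Ioi.concaveOn
  have h3 := hc.2 (show (4 / 5 : ℝ) ∈ Set.Ioi 0 by norm_num) (show (1 : ℝ) ∈ Set.Ioi 0 by norm_num)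
    (show 0 ≤ 5 * q by linarith) (show 0 ≤ 1 - 5 * q by linarith) (by ring)
  simp only [smul_eq_mul, Real.log_one, mul_zero, add_zero, mul_one] at h3
  have h4 : 5 * q * (4 / 5) + (1 - 5 * q) = 1 - q := by ring
  rw [h4] at h3
  have h5 : Real.log (4 / 5) = -Real.log (5 / 4) := by
    rw [← Real.log_inv]; norm_num
  rw [h5] at h3
  nlinarith

theorem rho_bd (η : ℝ) (h0 : 0 < η) (h1 : η ≤ 1 / 20) :
    1 - 13 * η ≤ (1 - η) ^ 3 * (1 - 2 * η) ^ 2 * (1 - 5 * η) / (1 + η) := by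
  rw [le_div_iff₀ (by linarith)]
  have a1 : 1 - 3 * η ≤ (1 - η) ^ 3 := by nlinarith [sq_nonneg η, mul_nonneg h0.le (sq_nonneg η)]
  have a2 : 1 - 4 * η ≤ (1 - 2 * η) ^ 2 := by nlinarith [sq_nonneg η]
  have a3 : (1 - 3 * η) * (1 - 4 * η) ≤ (1 - η) ^ 3 * (1 - 2 * η) ^ 2 :=
    mul_le_mul a1 a2 (by linarith) (by have : 0 < 1 - η := by linarith
                                       positivity)
  have a4 : (1 - 3 * η) * (1 - 4 * η) * (1 - 5 * η) ≤
      (1 - η) ^ 3 * (1 - 2 * η) ^ 2 * (1 - 5 * η) :=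
    mul_le_mul_of_nonneg_right a3 (by linarith)
  have a5 : 1 - 7 * η ≤ (1 - 3 * η) * (1 - 4 * η) := by nlinarith [sq_nonneg η]
  have a6 : (1 - 7 * η) * (1 - 5 * η) ≤ (1 - 3 * η) * (1 - 4 * η) * (1 - 5 * η) :=
    mul_le_mul_of_nonneg_right a5 (by linarith)
  nlinarith [sq_nonneg η]

theorem length_bd {Λ : ℝ → ℝ} {X₁ : ℝ} (hΛ1 : 0 < Λ X₁) (hmono : MonotoneOn Λ (Set.Ici X₁))
    (hlim : Tendsto (fun x => Λ x / Real.log x) atTop (𝓝 0)) (ε : ℝ) (hε : 0 < ε) :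
    ∃ κ η : ℝ, 0 < κ ∧ 0 < η ∧ η < 1 / 10 ∧
      ∀ᶠ x : ℕ in atTop, (E0 - ε) * (Real.log x) ^ 2 / Λ x ≤ (ZZ Λ κ η x : ℝ) := by
  set η : ℝ := min (1 / 20) (ε / 27) with hη
  have hη0 : 0 < η := lt_min (by norm_num) (by positivity)
  have hη20 : η ≤ 1 / 20 := min_le_left _ _
  have hηε : 27 * η ≤ ε := by
    have : η ≤ ε / 27 := min_le_right _ _
    linarith
  set κ : ℝ := 1 / (η * Λ X₁) with hκ
  have hκ0 : 0 < κ := by positivity
  refine ⟨κ, η, hκ0, hη0, by linarith, ?_⟩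
  have hE := E0_pos
  have hE2 := E0_le
  have e1 : ∀ᶠ x : ℕ in atTop, X₁ ≤ (x : ℝ) :=
    tendsto_natCast_atTop_atTop.eventually_ge_atTop X₁
  have e2 : ∀ᶠ x : ℕ in atTop, Λ x / Real.log x < η / 2 :=
    tendsto_natCast_atTop_atTop.eventually (hlim.eventually_lt_const (by positivity))
  have e3 : ∀ᶠ x : ℕ in atTop, 2 / η ≤ Real.log x :=
    (Real.tendsto_log_atTop.comp tendsto_natCast_atTop_atTop).eventually_ge_atTop (2 / η)
  filter_upwards [e1, e2, e3, eventually_ge_atTop 6] with x h1 h2 h3 h4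
  set N := x / 2 with hN
  set L := Real.log x with hL
  have hN3 : 3 ≤ N := by omega
  have hx3 : x ≤ 3 * N := by omega
  have hN0 : (0 : ℝ) < N := by
    have : 0 < N := by omega
    exact_mod_cast this
  have hx0 : (0 : ℝ) < x := by
    have : 0 < x := by omega
    exact_mod_cast this
  rw [div_le_iff₀ hη0] at h3
  have hL40 : 40 ≤ L := by nlinarith
  have hL0 : 0 < L := by linarith
  have hlN : (1 - η) * L ≤ Real.log N := by
    have h5 : (x : ℝ) ≤ 3 * N := by exact_mod_cast hx3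
    have h6 : L ≤ Real.log (3 * N) := Real.log_le_log hx0 h5
    rw [Real.log_mul (by norm_num) hN0.ne'] at h6
    have h7 : Real.log 3 ≤ 2 := by
      have := Real.log_le_sub_one_of_pos (show (0 : ℝ) < 3 by norm_num)
      linarith
    linarith
  have hΛ1x : Λ X₁ ≤ Λ x := hmono Set.self_mem_Ici (Set.mem_Ici.2 h1) h1
  have hΛx : 0 < Λ x := lt_of_lt_of_le hΛ1 hΛ1x
  have h15 : 0 < 1 - 5 * η := by linarith
  have hκΛ : 1 ≤ η * (κ * Λ x) := by
    have h5 : η * (κ * Λ x) = Λ x / Λ X₁ := by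
      rw [hκ]
      field_simp
    rw [h5, one_le_div hΛ1]
    exact hΛ1x
  set W : ℝ := κ * Λ x with hW
  have hW0 : 0 < W := by positivity
  set J := JJ Λ κ η x with hJ
  set Jm : ℝ := (1 + η) * W / (1 - 5 * η) with hJm
  have hJle : (J : ℝ) ≤ Jm := by
    have h5 : (J : ℝ) < κ * Λ x / (1 - 5 * η) + 1 := Nat.ceil_lt_add_one (by positivity)
    have h6 : (1 : ℝ) ≤ η * W / (1 - 5 * η) := by
      rw [one_le_div h15]
      linarith
    have h7 : Jm = κ * Λ x / (1 - 5 * η) + η * W / (1 - 5 * η) := by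
      rw [hJm, ← add_div]
      congr 1
      rw [← hW]
      ring
    linarith
  have hJ0r : (0 : ℝ) < J := by
    have : κ * Λ x / (1 - 5 * η) ≤ J := Nat.le_ceil _
    exact lt_of_lt_of_le (by positivity) this
  have hJm0 : 0 < Jm := lt_of_lt_of_le hJ0r hJle
  have hJm1 : 1 ≤ Jm := by
    rw [hJm, le_div_iff₀ h15]
    have h8 : 1 ≤ W := by nlinarith
    nlinarith
  set Y := Yc κ η N with hY
  set Z := ZZ Λ κ η x with hZ
  have hZe : Z = Y / J := rfl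
  set V : ℝ := E0 * κ * (1 - η) * ((1 - 2 * η) * ((1 - η) * L)) ^ 2 with hV
  have hYge : V - 1 ≤ (Y : ℝ) := by
    have h5 : E0 * κ * (1 - η) * ((1 - 2 * η) * Real.log N) ^ 2 < (Y : ℝ) + 1 :=
      Nat.lt_floor_add_one _
    have h6 : V ≤ E0 * κ * (1 - η) * ((1 - 2 * η) * Real.log N) ^ 2 := by
      rw [hV]
      have b1 : 0 ≤ E0 * κ * (1 - η) := by
        have : 0 ≤ 1 - η := by linarith
        positivity
      have b2 : (1 - 2 * η) * ((1 - η) * L) ≤ (1 - 2 * η) * Real.log N :=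
        mul_le_mul_of_nonneg_left hlN (by linarith)
      have b3 : 0 ≤ (1 - 2 * η) * ((1 - η) * L) :=
        mul_nonneg (by linarith) (mul_nonneg (by linarith) hL0.le)
      exact mul_le_mul_of_nonneg_left (pow_le_pow_left₀ b3 b2 2) b1
    linarith
  have hZge : (Y : ℝ) / J - 1 ≤ Z := by
    have h5 : Y < J * (Z + 1) := by
      rw [hZe]
      have := Nat.lt_mul_div_succ Y (show 0 < J by exact_mod_cast hJ0r)
      exact this
    have h6 : (Y : ℝ) < J * (Z + 1) := by exact_mod_cast h5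
    have h7 : (Y : ℝ) / J < Z + 1 := by
      rw [div_lt_iff₀ hJ0r]
      linarith
    linarith
  have hYJ : (Y : ℝ) / Jm ≤ (Y : ℝ) / J := div_le_div_of_nonneg_left (Nat.cast_nonneg _) hJ0r hJle
  have hVJ : (V - 1) / Jm ≤ (Y : ℝ) / Jm := div_le_div_of_nonneg_right hYge hJm0.le
  have hkey : V / Jm = E0 * ((1 - η) ^ 3 * (1 - 2 * η) ^ 2 * (1 - 5 * η) / (1 + η)) *
      (L ^ 2 / Λ x) := by
    rw [hV, hJm, hW]
    have c1 : (1 + η) ≠ 0 := by linarith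
    have c2 := h15.ne'
    have c3 := hκ0.ne'
    have c4 := hΛx.ne'
    field_simp
  have hone : 1 / Jm ≤ 1 := by
    rw [div_le_one hJm0]; exact hJm1
  have hrho := rho_bd η hη0 hη20
  have hQ0 : 0 ≤ L ^ 2 / Λ x := by positivity
  have h2Q : 2 ≤ η * (L ^ 2 / Λ x) := by
    rw [div_lt_iff₀ hL0] at h2
    have h5 : 2 * Λ x ≤ η * L ^ 2 := by nlinarith
    have h6 : η * (L ^ 2 / Λ x) = η * L ^ 2 / Λ x := by ring
    rw [h6, le_div_iff₀ hΛx]
    exact h5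
  have hfin : (E0 - ε) * (L ^ 2 / Λ x) ≤ (E0 * (1 - 13 * η) - η) * (L ^ 2 / Λ x) := by
    apply mul_le_mul_of_nonneg_right _ hQ0
    nlinarith
  have hfin2 : E0 * (1 - 13 * η) * (L ^ 2 / Λ x) ≤
      E0 * ((1 - η) ^ 3 * (1 - 2 * η) ^ 2 * (1 - 5 * η) / (1 + η)) * (L ^ 2 / Λ x) := by
    gcongr
  have hsub : (V - 1) / Jm = V / Jm - 1 / Jm := by ring
  calc (E0 - ε) * L ^ 2 / Λ x = (E0 - ε) * (L ^ 2 / Λ x) := by ring
    _ ≤ (E0 * (1 - 13 * η) - η) * (L ^ 2 / Λ x) := hfin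
    _ = E0 * (1 - 13 * η) * (L ^ 2 / Λ x) - η * (L ^ 2 / Λ x) := by ring
    _ ≤ V / Jm - 2 := by rw [hkey]; linarith
    _ ≤ (V - 1) / Jm - 1 := by rw [hsub]; linarith
    _ ≤ (Y : ℝ) / J - 1 := by linarith
    _ ≤ Z := hZge

section

variable {Ω : Type*} [mΩ : MeasurableSpace Ω] {μ : Measure Ω} [IsProbabilityMeasure μ]
variable {A : Nat.Primes → Set Ω} {Λ : ℝ → ℝ} {X₁ : ℝ}

theorem main (hA : ∀ p, MeasurableSet (A p)) (hind : iIndepSet A μ) (hΛ1 : 0 < Λ X₁)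
    (hmono : MonotoneOn Λ (Set.Ici X₁))
    (hlim : Tendsto (fun x => Λ x / Real.log x) atTop (𝓝 0))
    (hP : ∀ p : Nat.Primes, X₁ ≤ ((p : ℕ) : ℝ) → μ.real (A p)ᶜ = Real.exp (-Λ ((p : ℕ) : ℝ))) :
    ∀ᵐ ω ∂μ, ∀ ε : ℝ, 0 < ε → ∀ᶠ x : ℕ in atTop, ∃ a b : ℕ, Consec (Kept A ω) a b ∧ a ≤ x ∧
      (E0 - ε) * (Real.log x) ^ 2 / Λ x ≤ (b : ℝ) - a := by
  have h1 : ∀ k : ℕ, ∀ᵐ ω ∂μ, ∀ᶠ x : ℕ in atTop, ∃ a b : ℕ, Consec (Kept A ω) a b ∧ a ≤ x ∧
      (E0 - 1 / ((k : ℝ) + 1)) * (Real.log x) ^ 2 / Λ x ≤ (b : ℝ) - a := by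
    intro k
    obtain ⟨κ, η, hκ, hη, hη1, hlen⟩ := length_bd hΛ1 hmono hlim (1 / ((k : ℝ) + 1)) (by positivity)
    filter_upwards [ae_windows hA hind hΛ1 hmono hP κ η hκ hη hη1,
      kept_infinite hA hind hΛ1 hmono hP] with ω hw hinf
    obtain ⟨s, hs⟩ := hinf.nonempty
    have hs1 : ∀ᶠ N : ℕ in atTop, (s : ℝ) ≤ (N : ℝ) ^ (1 - 2 * η) :=
      tendsto_natCast_atTop_atTop.eventually
        ((tendsto_rpow_atTop (by linarith : 0 < 1 - 2 * η)).eventually_ge_atTop (s : ℝ))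
    filter_upwards [hw, hlen, half_tendsto.eventually hs1] with x h2 h3 h4
    obtain ⟨m, h5, h6, h7⟩ := h2
    have hsm : s ≤ m := by exact_mod_cast h4.trans h5
    have hgap : ∀ c ∈ Kept A ω, ¬ (m < c ∧ c ≤ m + ZZ Λ κ η x) := by
      rintro c ⟨hc1, hc2⟩ h
      exact h7 ⟨c, hc1⟩ (mem_TT.2 h) hc2
    obtain ⟨a, b, hab, ham, hZ⟩ := exists_consec hinf hs hsm hgap
    refine ⟨a, b, hab, ham.trans h6, h3.trans ?_⟩
    have h8 : ZZ Λ κ η x + a ≤ b := by omega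
    have h9 : ((ZZ Λ κ η x : ℕ) : ℝ) + a ≤ b := by exact_mod_cast h8
    linarith
  have h2 := ae_all_iff.2 h1
  filter_upwards [h2] with ω hω ε hε
  obtain ⟨k, hk⟩ := exists_nat_one_div_lt hε
  have e1 : ∀ᶠ x : ℕ in atTop, X₁ ≤ (x : ℝ) :=
    tendsto_natCast_atTop_atTop.eventually_ge_atTop X₁
  filter_upwards [hω k, e1] with x h3 h4
  obtain ⟨a, b, h5, h6, h7⟩ := h3
  refine ⟨a, b, h5, h6, le_trans ?_ h7⟩
  have hΛx : 0 < Λ x := lt_of_lt_of_le hΛ1 (hmono Set.self_mem_Ici (Set.mem_Ici.2 h4) h4)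
  have h8 : 0 ≤ (Real.log x) ^ 2 / Λ x := by positivity
  rw [mul_div_assoc, mul_div_assoc]
  exact mul_le_mul_of_nonneg_right (by linarith) h8

theorem const_q (hA : ∀ p, MeasurableSet (A p)) (hind : iIndepSet A μ) (q : ℝ) (hq0 : 0 < q)
    (hq1 : q ≤ 1 / 5) (hP : ∀ p : Nat.Primes, μ.real (A p) = q) :
    ∀ᵐ ω ∂μ, ∀ᶠ x : ℕ in atTop, ∃ a b : ℕ, Consec (Kept A ω) a b ∧ a ≤ x ∧
      1.002 * (Real.log x) ^ 2 / q ≤ (b : ℝ) - a := by
  have hl : 0 < -Real.log (1 - q) := by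
    have := Real.log_neg (show 0 < 1 - q by linarith) (by linarith)
    linarith
  have h := main (μ := μ) (A := A) (Λ := fun _ => -Real.log (1 - q)) (X₁ := 0) hA hind hl
    (fun _ _ _ _ _ => le_rfl) (Real.tendsto_log_atTop.const_div_atTop _) (fun p _ => by
      rw [probReal_compl_eq_one_sub (hA p), hP p, neg_neg, Real.exp_log (by linarith)])
  filter_upwards [h] with ω hω
  filter_upwards [hω 0.0005 (by norm_num)] with x hx
  obtain ⟨a, b, h1, h2, h3⟩ := hx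
  refine ⟨a, b, h1, h2, le_trans ?_ h3⟩
  have h4 := E0_big
  have h5 := log_q q hq0 hq1
  rw [mul_div_assoc, mul_div_assoc, div_eq_mul_inv, div_eq_mul_inv ((Real.log x) ^ 2)]
  have h6 : 1.002 * q⁻¹ ≤ (E0 - 0.0005) * (-Real.log (1 - q))⁻¹ := by
    rw [← div_eq_mul_inv, ← div_eq_mul_inv, div_le_div_iff₀ hq0 hl]
    nlinarith
  calc 1.002 * ((Real.log x) ^ 2 * q⁻¹) = (1.002 * q⁻¹) * (Real.log x) ^ 2 := by ring
    _ ≤ ((E0 - 0.0005) * (-Real.log (1 - q))⁻¹) * (Real.log x) ^ 2 :=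
        mul_le_mul_of_nonneg_right h6 (sq_nonneg _)
    _ = (E0 - 0.0005) * ((Real.log x) ^ 2 * (-Real.log (1 - q))⁻¹) := by ring

end

end Pool.Agent.Helper416_TP
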